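import Pool.Agent.W837.GB.Defs

/-!
# Comparison of Gaussian densities
-/

set_option autoImplicit false

open MeasureTheory ProbabilityTheory
open scoped NNReal ENNReal

namespace Pool.Agent.W101.GB

open Pool.Agent.W837.GB

lemma pi_le_pi {ι : Type} [Fintype ι] {μ ν : ι → Measure ℝ} [∀ i, SigmaFinite (μ i)]
    (h : ∀ i, μ i ≤ ν i) : Measure.pi μ ≤ Measure.pi ν := by
  have h1 : (Measure.pi μ).toOuterMeasure ≤ OuterMeasure.pi fun i => (ν i).toOuterMeasure := by
    rw [OuterMeasure.le_pi]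
    intro s _
    calc Measure.pi μ (Set.univ.pi s) = ∏ i, μ i (s i) := Measure.pi_pi μ s
      _ ≤ ∏ i, ν i (s i) := Finset.prod_le_prod' fun i _ => h i (s i)
  refine Measure.le_iff.2 fun S hS => ?_
  have h2 : Measure.pi ν S = OuterMeasure.pi (fun i => (ν i).toOuterMeasure) S := by
    rw [Measure.pi, toMeasure_apply _ _ hS]
  rw [h2]
  exact h1 S

lemma pi_smul_eq {ι : Type} [Fintype ι] (c : ι → ℝ≥0) (ν : ι → Measure ℝ)
    [∀ i, SigmaFinite (ν i)] :
    Measure.pi (fun i => c i • ν i) = (∏ i, c i) • Measure.pi ν := by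
  apply Measure.pi_eq
  intro s _
  rw [Measure.smul_apply, Measure.pi_pi]
  simp only [Measure.smul_apply, ENNReal.smul_def, smul_eq_mul]
  rw [Finset.prod_mul_distrib, ENNReal.ofNNReal_finsetProd]

lemma exponent_le (τ x y : ℝ) (hτ : 0 ≤ τ) :
    (y + τ * x) ^ 2 ≤ (1 + τ) ^ 2 * (y ^ 2 + τ * x ^ 2 / 2) := by
  have h1 : 0 ≤ τ * ((τ + 2) * y ^ 2 - 2 * x * y + (1 + τ ^ 2) * x ^ 2 / 2) := by
    apply mul_nonneg hτ
    nlinarith [sq_nonneg (2 * y - x), sq_nonneg y, sq_nonneg (τ * x),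
      mul_nonneg hτ (sq_nonneg y)]
  nlinarith [h1]

lemma pdf_le (t x y : ℝ) (ht : 1 ≤ t) :
    gaussianPDFReal 0 1 y ≤ (t * Real.exp ((t - 1) * x ^ 2 / 4)) *
      gaussianPDFReal ((1 - t) * x) (Real.toNNReal (t ^ 2)) y := by
  have ht0 : 0 < t := by linarith
  rw [gaussianPDFReal, gaussianPDFReal, Real.coe_toNNReal _ (sq_nonneg t)]
  have h1 : Real.sqrt (2 * Real.pi * t ^ 2) = Real.sqrt (2 * Real.pi) * t := by
    rw [Real.sqrt_mul (by positivity), Real.sqrt_sq ht0.le]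
  have h2 : 0 < Real.sqrt (2 * Real.pi) := Real.sqrt_pos.2 (by positivity)
  rw [h1]
  have h3 : t * Real.exp ((t - 1) * x ^ 2 / 4) * ((Real.sqrt (2 * Real.pi) * t)⁻¹ *
      Real.exp (-(y - (1 - t) * x) ^ 2 / (2 * t ^ 2)))
      = (Real.sqrt (2 * Real.pi))⁻¹ * Real.exp ((t - 1) * x ^ 2 / 4 +
        -(y - (1 - t) * x) ^ 2 / (2 * t ^ 2)) := by
    rw [Real.exp_add]
    field_simp
  rw [h3]
  simp only [NNReal.coe_one, mul_one, sub_zero]
  apply mul_le_mul_of_nonneg_left _ (inv_nonneg.2 h2.le)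
  apply Real.exp_le_exp.2
  have h4 := exponent_le (t - 1) x y (by linarith)
  have h5 : (y - (1 - t) * x) ^ 2 / (2 * t ^ 2) ≤ (y ^ 2 + (t - 1) * x ^ 2 / 2) / 2 := by
    rw [div_le_div_iff₀ (by positivity) (by norm_num)]
    have h6 : y + (t - 1) * x = y - (1 - t) * x := by ring
    have h7 : 1 + (t - 1) = t := by ring
    rw [h6, h7] at h4
    nlinarith [h4]
  rw [neg_div, neg_div]
  linarith

lemma gauss_le (t x : ℝ) (ht : 1 ≤ t) :
    gaussianReal 0 1 ≤ (Real.toNNReal (t * Real.exp ((t - 1) * x ^ 2 / 4))) •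
      gaussianReal ((1 - t) * x) (Real.toNNReal (t ^ 2)) := by
  have ht0 : 0 < t := by linarith
  have hv : Real.toNNReal (t ^ 2) ≠ 0 := by
    rw [ne_eq, Real.toNNReal_eq_zero, not_le]
    positivity
  rw [gaussianReal_of_var_ne_zero _ one_ne_zero, gaussianReal_of_var_ne_zero _ hv]
  have h1 : (Real.toNNReal (t * Real.exp ((t - 1) * x ^ 2 / 4))) •
      (volume : Measure ℝ).withDensity (gaussianPDF ((1 - t) * x) (Real.toNNReal (t ^ 2)))
      = (volume : Measure ℝ).withDensity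
        (((Real.toNNReal (t * Real.exp ((t - 1) * x ^ 2 / 4)) : ℝ≥0) : ℝ≥0∞) •
          gaussianPDF ((1 - t) * x) (Real.toNNReal (t ^ 2))) := by
    rw [withDensity_smul _ (measurable_gaussianPDF _ _)]
    rfl
  rw [h1]
  apply withDensity_mono
  refine Filter.Eventually.of_forall fun y => ?_
  simp only [Pi.smul_apply, smul_eq_mul, gaussianPDF]
  have h2 : ((Real.toNNReal (t * Real.exp ((t - 1) * x ^ 2 / 4)) : ℝ≥0) : ℝ≥0∞)
      = ENNReal.ofReal (t * Real.exp ((t - 1) * x ^ 2 / 4)) := rfl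
  rw [h2, ← ENNReal.ofReal_mul (by positivity)]
  exact ENNReal.ofReal_le_ofReal (pdf_le t x y ht)

lemma law (t x : ℝ) :
    (gaussianReal 0 1).map (fun g => t * g + (1 - t) * x) =
      gaussianReal ((1 - t) * x) (Real.toNNReal (t ^ 2)) := by
  have h1 : (fun g : ℝ => t * g + (1 - t) * x) = (· + (1 - t) * x) ∘ (t * ·) := rfl
  rw [h1, ← Measure.map_map (by fun_prop) (by fun_prop), gaussianReal_map_const_mul,
    gaussianReal_map_add_const]
  congr 1
  · ring
  · rw [mul_one]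
    ext
    simp [Real.coe_toNNReal _ (sq_nonneg t)]

theorem sb3 : S_SB3 := by
  intro ι _ x t S hS ht hx
  have ht0 : 0 < t := by linarith
  set c : ι → ℝ≥0 := fun i => Real.toNNReal (t * Real.exp ((t - 1) * (x i) ^ 2 / 4)) with hc
  set T : (ι → ℝ) → (ι → ℝ) := fun g i => t * g i + (1 - t) * x i with hT
  have hTm : Measurable T := by
    rw [hT]
    fun_prop
  have hmap : (gam ι).map T =
      Measure.pi fun i => gaussianReal ((1 - t) * x i) (Real.toNNReal (t ^ 2)) := by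
    rw [gam, hT]
    have h1 := Measure.pi_map_pi (μ := fun _ : ι => gaussianReal 0 1)
      (f := fun (i : ι) (g : ℝ) => t * g + (1 - t) * x i) (by intro i; fun_prop)
    rw [h1]
    congr 1
    funext i
    exact law t (x i)
  have hle : gam ι ≤ (∏ i, c i) • (gam ι).map T := by
    rw [hmap, ← pi_smul_eq, gam]
    exact pi_le_pi fun i => gauss_le t (x i) ht
  have hprod : ((∏ i, c i : ℝ≥0) : ℝ) ≤ 3 := by
    rw [NNReal.coe_prod]
    have h1 : ∀ i, ((c i : ℝ≥0) : ℝ) ≤ Real.exp ((t - 1) * (1 + (x i) ^ 2)) := by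
      intro i
      rw [hc]
      simp only
      rw [Real.coe_toNNReal _ (by positivity)]
      calc t * Real.exp ((t - 1) * (x i) ^ 2 / 4)
          ≤ Real.exp (t - 1) * Real.exp ((t - 1) * (x i) ^ 2 / 4) := by
            apply mul_le_mul_of_nonneg_right _ (Real.exp_pos _).le
            linarith [Real.add_one_le_exp (t - 1)]
        _ = Real.exp ((t - 1) + (t - 1) * (x i) ^ 2 / 4) := (Real.exp_add _ _).symm
        _ ≤ Real.exp ((t - 1) * (1 + (x i) ^ 2)) := by
            apply Real.exp_le_exp.2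
            nlinarith [mul_nonneg (show 0 ≤ t - 1 by linarith) (sq_nonneg (x i))]
    calc ∏ i, ((c i : ℝ≥0) : ℝ) ≤ ∏ i, Real.exp ((t - 1) * (1 + (x i) ^ 2)) :=
          Finset.prod_le_prod (fun i _ => NNReal.coe_nonneg _) fun i _ => h1 i
      _ = Real.exp (∑ i, (t - 1) * (1 + (x i) ^ 2)) := (Real.exp_sum _ _).symm
      _ ≤ Real.exp 1 := by
          apply Real.exp_le_exp.2
          rw [← Finset.mul_sum, Finset.sum_add_distrib]
          simpa using hx
      _ ≤ 3 := by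
          have := Real.exp_one_lt_d9
          linarith
  have hfin : gam ι S ≤ ((∏ i, c i : ℝ≥0) : ℝ≥0∞) * gam ι (T ⁻¹' S) := by
    have h1 := hle S
    rw [Measure.smul_apply, Measure.map_apply hTm hS, ENNReal.smul_def, smul_eq_mul] at h1
    exact h1
  have : IsProbabilityMeasure (gam ι) := by
    rw [gam]
    infer_instance
  have h2 : (gam ι).real S ≤ ((∏ i, c i : ℝ≥0) : ℝ) * (gam ι).real (T ⁻¹' S) := by
    rw [measureReal_def, measureReal_def]
    have h3 := ENNReal.toReal_mono (ENNReal.mul_ne_top ENNReal.coe_ne_top (measure_ne_top _ _)) hfin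
    rw [ENNReal.toReal_mul, ENNReal.coe_toReal] at h3
    exact h3
  exact h2.trans (mul_le_mul_of_nonneg_right hprod measureReal_nonneg)

end Pool.Agent.W101.GB
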